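import Pool.Agent.H15.DB.Int
import Pool.Agent.H86.DB.Targets

/-!
# Row INT: the integration lemma, without hypotheses
-/

open Module

namespace Pool.Agent.H15.DB

open Pool.Agent.H12.Defect Pool.Agent.H15.Defect Pool.Agent.H86.DB

universe u

theorem s_INT : T_INT.{u} := by
  intro k _ A _ _ A₁ x N₁ N₂ hx hA h₁ h₂
  obtain ⟨n, hn⟩ := hx
  refine dle_integration A₁ x n (by rw [pow_succ, hn, zero_mul]) hA
    (Ideal.Quotient.mkₐ k (Ideal.span {x}).annihilator) Ideal.Quotient.mk_surjective ?_ h₁ h₂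
  intro b
  show Ideal.Quotient.mk _ b = 0 ↔ _
  rw [Ideal.Quotient.eq_zero_iff_mem]
  have h1 : b ∈ (Ideal.span {x}).annihilator ↔ b • x = 0 :=
    Submodule.mem_annihilator_span_singleton x b
  rw [h1, smul_eq_mul, mul_comm]

theorem pf_INT (_hJ : T_JET.{u}) : T_INT.{u} := s_INT

end Pool.Agent.H15.DB
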