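import Pool.Agent.H15.DB.Jet

/-!
# The integration lemma

If `A = A₁ + x A` with a subalgebra `A₁` and a nilpotent element `x` then the cost of `A` is at
most the sum of the costs of `A₁` and of `A / (0 : x)`.
-/

open TensorProduct Module PowerSeries

namespace Pool.Agent.H15.DB

open Pool.Agent.H12.Defect Pool.Agent.H15.Defect Pool.Agent.H15.CX

universe u

section integration

variable {k A A₂ : Type u} [Field k] [CommRing A] [Algebra k A] [CommRing A₂] [Algebra k A₂]

theorem dle_integration (A₁ : Subalgebra k A) (x : A) (e : ℕ) (hx : x ^ (e + 1) = 0)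
    (hA : ∀ a : A, ∃ a₁ ∈ A₁, ∃ b, a = a₁ + x * b)
    (q : A →ₐ[k] A₂) (hq : Function.Surjective q) (hker : ∀ b, q b = 0 ↔ x * b = 0)
    {N₁ N₂ : ℕ} (h₁ : Dle k A₁ N₁) (h₂ : Dle k A₂ N₂) : Dle k A (N₁ + N₂) := by
  classical
  have hE : Dle k (A₁ × A₂) (N₁ + N₂) := h₁.prod h₂
  -- multiplication by `x` from `A₂` to `A`
  let mx : A₂ → A := fun v => x * Function.surjInv hq v
  have hmx : ∀ b, mx (q b) = x * b := by
    intro b
    have h1 : q (Function.surjInv hq (q b) - b) = 0 := by
      rw [map_sub, Function.surjInv_eq hq, sub_self]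
    rw [hker, mul_sub, sub_eq_zero] at h1
    exact h1
  have hmx0 : mx 0 = 0 := by
    have := hmx 0
    rwa [map_zero, mul_zero] at this
  have hmxadd : ∀ u v, mx (u + v) = mx u + mx v := by
    intro u v
    obtain ⟨a, rfl⟩ := hq u
    obtain ⟨b, rfl⟩ := hq v
    rw [← map_add, hmx, hmx, hmx, mul_add]
  have hmxmul : ∀ a v, mx (q a * v) = a * mx v := by
    intro a v
    obtain ⟨b, rfl⟩ := hq v
    rw [← map_mul, hmx, hmx]
    ring
  let m1 : PowerSeries (A₁ × A₂) →+* PowerSeries A₁ := PowerSeries.map (RingHom.fst A₁ A₂)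
  let m2 : PowerSeries (A₁ × A₂) →+* PowerSeries A₂ := PowerSeries.map (RingHom.snd A₁ A₂)
  let ι : A₁ →+* A₂ := (q : A →+* A₂).comp (A₁.val : A₁ →+* A)
  let mι : PowerSeries A₁ →+* PowerSeries A₂ := PowerSeries.map ι
  set y : PowerSeries A₂ := X + C (q x) with hy
  -- the cofactor
  let g : PowerSeries A₂ := ∑ i ∈ Finset.range (e + 1), X ^ i * (-C (q x)) ^ (e + 1 - 1 - i)
  have hg : g * y = X ^ (e + 1) := by
    have h1 := geom_sum₂_mul (X : PowerSeries A₂) (-C (q x)) (e + 1)
    rw [sub_neg_eq_add, neg_pow, ← map_pow, ← map_pow, hx, map_zero, map_zero, mul_zero,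
      sub_zero] at h1
    exact h1
  have hg0 : constantCoeff g = (-q x) ^ e := by
    show constantCoeff (∑ i ∈ Finset.range (e + 1), X ^ i * (-C (q x)) ^ (e + 1 - 1 - i)) = _
    rw [map_sum, Finset.sum_eq_single 0]
    · simp
    · intro i _ hi
      simp [hi]
    · intro h
      exact absurd (Finset.mem_range.mpr (Nat.succ_pos e)) h
  have hXinj : ∀ w : PowerSeries A₂, X ^ (e + 1) * w = 0 → w = 0 := by
    intro w hw
    ext n
    have h1 := congrArg (coeff (n + (e + 1))) hw
    rw [coeff_X_pow_mul, map_zero] at h1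
    rw [h1, map_zero]
  have hyinj : ∀ w : PowerSeries A₂, y * w = 0 → w = 0 := by
    intro w hw
    apply hXinj
    rw [← hg, mul_assoc, hw, mul_zero]
  -- the subalgebra
  let S₀ : Subalgebra k (PowerSeries (A₁ × A₂)) :=
    { carrier := {f | ∃ u, m2 f = mι (m1 f) + y * u}
      mul_mem' := by
        rintro f h ⟨u, hu⟩ ⟨v, hv⟩
        refine ⟨mι (m1 f) * v + mι (m1 h) * u + y * u * v, ?_⟩
        rw [map_mul, map_mul, map_mul, hu, hv]
        ring
      add_mem' := by
        rintro f h ⟨u, hu⟩ ⟨v, hv⟩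
        refine ⟨u + v, ?_⟩
        rw [map_add, map_add, map_add, hu, hv]
        ring
      algebraMap_mem' := by
        intro c
        refine ⟨0, ?_⟩
        rw [PowerSeries.algebraMap_apply]
        show PowerSeries.map (RingHom.snd A₁ A₂) (C (algebraMap k (A₁ × A₂) c)) =
          PowerSeries.map ι (PowerSeries.map (RingHom.fst A₁ A₂) (C (algebraMap k (A₁ × A₂) c)))
            + y * 0
        rw [PowerSeries.map_C, PowerSeries.map_C, PowerSeries.map_C, mul_zero, add_zero]
        congr 1
        show algebraMap k A₂ c = q ((algebraMap k A₁ c : A₁) : A)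
        rw [Subalgebra.coe_algebraMap, AlgHom.commutes] }
  have hmem : ∀ f, f ∈ S₀ ↔ ∃ u, m2 f = mι (m1 f) + y * u := fun _ => Iff.rfl
  choose! U hU using fun f (hf : f ∈ S₀) => hf
  have hUuniq : ∀ f (hf : f ∈ S₀) u, m2 f = mι (m1 f) + y * u → U f = u := by
    intro f hf u hu
    have h1 : m2 f = mι (m1 f) + y * U f := hU f hf
    rw [h1] at hu
    have h2 : y * (U f - u) = 0 := by
      rw [mul_sub, sub_eq_zero]
      exact add_left_cancel hu
    exact sub_eq_zero.mp (hyinj _ h2)
  let F : PowerSeries (A₁ × A₂) → A := fun f =>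
    ((constantCoeff (m1 f) : A₁) : A) + mx (constantCoeff (U f))
  have hF : ∀ f (hf : f ∈ S₀) u, m2 f = mι (m1 f) + y * u →
      F f = ((constantCoeff (m1 f) : A₁) : A) + mx (constantCoeff u) := by
    intro f hf u hu
    show _ + mx (constantCoeff (U f)) = _
    rw [hUuniq f hf u hu]
  have hcι : ∀ f : PowerSeries (A₁ × A₂), constantCoeff (mι (m1 f)) =
      q ((constantCoeff (m1 f) : A₁) : A) := by
    intro f
    show constantCoeff (PowerSeries.map ι (m1 f)) = _
    rw [← coeff_zero_eq_constantCoeff_apply, coeff_map, coeff_zero_eq_constantCoeff_apply]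
    rfl
  let ψ₀ : S₀ →ₐ[k] A :=
    { toFun := fun f => F f.1
      map_one' := by
        have h1 : m2 (1 : PowerSeries (A₁ × A₂)) = mι (m1 1) + y * 0 := by
          rw [map_one, map_one, map_one, mul_zero, add_zero]
        show F ((1 : S₀) : PowerSeries (A₁ × A₂)) = 1
        rw [hF _ (1 : S₀).2 0 h1, map_zero, hmx0, add_zero]
        show ((constantCoeff (m1 1) : A₁) : A) = 1
        rw [map_one, map_one]
        rfl
      map_mul' := by
        rintro ⟨f, hf⟩ ⟨h, hh⟩
        obtain ⟨u, hu⟩ := hf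
        obtain ⟨v, hv⟩ := hh
        have h1 : m2 (f * h) = mι (m1 (f * h)) +
            y * (mι (m1 f) * v + mι (m1 h) * u + y * u * v) := by
          rw [map_mul, map_mul, map_mul, hu, hv]
          ring
        show F (f * h) = F f * F h
        rw [hF f ⟨u, hu⟩ u hu, hF h ⟨v, hv⟩ v hv, hF (f * h) ⟨_, h1⟩ _ h1]
        have h10 : constantCoeff (m1 (f * h)) = constantCoeff (m1 f) * constantCoeff (m1 h) := by
          rw [map_mul, map_mul]
        rw [h10, map_add, map_add, map_mul constantCoeff (mι (m1 f)) v,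
          map_mul constantCoeff (mι (m1 h)) u, map_mul constantCoeff (y * u) v,
          map_mul constantCoeff y u, hcι, hcι, hmxadd, hmxadd, hmxmul, hmxmul]
        have h2 : constantCoeff y = q x := by simp [hy]
        rw [h2]
        obtain ⟨u', hu'⟩ := hq (constantCoeff u)
        obtain ⟨v', hv'⟩ := hq (constantCoeff v)
        have h9 : q x * q u' * q v' = q (x * u' * v') := by rw [map_mul, map_mul]
        rw [← hu', ← hv', hmx, hmx, h9, hmx]
        push_cast
        ring
      map_zero' := by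
        have h1 : m2 (0 : PowerSeries (A₁ × A₂)) = mι (m1 0) + y * 0 := by
          rw [map_zero, map_zero, map_zero, mul_zero, add_zero]
        show F ((0 : S₀) : PowerSeries (A₁ × A₂)) = 0
        rw [hF _ (0 : S₀).2 0 h1, map_zero, hmx0, add_zero]
        show ((constantCoeff (m1 0) : A₁) : A) = 0
        rw [map_zero, map_zero]
        rfl
      map_add' := by
        rintro ⟨f, hf⟩ ⟨h, hh⟩
        obtain ⟨u, hu⟩ := hf
        obtain ⟨v, hv⟩ := hh
        have h1 : m2 (f + h) = mι (m1 (f + h)) + y * (u + v) := by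
          rw [map_add, map_add, map_add, hu, hv]
          ring
        show F (f + h) = F f + F h
        rw [hF f ⟨u, hu⟩ u hu, hF h ⟨v, hv⟩ v hv, hF (f + h) ⟨_, h1⟩ _ h1]
        rw [map_add m1, map_add constantCoeff, map_add, hmxadd]
        push_cast
        ring
      commutes' := by
        intro c
        have h0 : (algebraMap k S₀ c : PowerSeries (A₁ × A₂)) =
            C (algebraMap k (A₁ × A₂) c) := by
          rw [Subalgebra.coe_algebraMap, PowerSeries.algebraMap_apply]
        have h3 : m1 (C (algebraMap k (A₁ × A₂) c)) = C (algebraMap k A₁ c) := by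
          show PowerSeries.map (RingHom.fst A₁ A₂) _ = _
          rw [PowerSeries.map_C]
          rfl
        have h1 : m2 (C (algebraMap k (A₁ × A₂) c)) =
            mι (m1 (C (algebraMap k (A₁ × A₂) c))) + y * 0 := by
          rw [h3]
          show PowerSeries.map (RingHom.snd A₁ A₂) _ = PowerSeries.map ι _ + _
          rw [PowerSeries.map_C, PowerSeries.map_C, mul_zero, add_zero]
          congr 1
          show algebraMap k A₂ c = q ((algebraMap k A₁ c : A₁) : A)
          rw [Subalgebra.coe_algebraMap, AlgHom.commutes]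
        show F (algebraMap k S₀ c : PowerSeries (A₁ × A₂)) = algebraMap k A c
        rw [h0, hF _ ⟨0, h1⟩ 0 h1, map_zero, hmx0, add_zero, h3, constantCoeff_C,
          Subalgebra.coe_algebraMap] }
  have hψ : ∀ f : S₀, ψ₀ f = F f.1 := fun _ => rfl
  have hX : (X : PowerSeries (A₁ × A₂)) ∈ S₀ := by
    refine ⟨0, ?_⟩
    show PowerSeries.map _ X = PowerSeries.map _ (PowerSeries.map _ X) + y * 0
    rw [PowerSeries.map_X, PowerSeries.map_X, PowerSeries.map_X, mul_zero, add_zero]
  refine dle_of_series e hE S₀ ψ₀ ?_ hX ?_ ?_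
  · intro a
    obtain ⟨a₁, ha₁, b, rfl⟩ := hA a
    let f : PowerSeries (A₁ × A₂) := PowerSeries.mk fun n =>
      (coeff n (C (⟨a₁, ha₁⟩ : A₁)), coeff n (C (q a₁) + y * C (q b)))
    have h1 : m1 f = C ⟨a₁, ha₁⟩ := by
      ext n
      show (coeff n (PowerSeries.map (RingHom.fst A₁ A₂) f) : A₁).1 = _
      rw [coeff_map, coeff_mk]
      rfl
    have h2 : m2 f = C (q a₁) + y * C (q b) := by
      ext n
      show coeff n (PowerSeries.map (RingHom.snd A₁ A₂) f) = _
      rw [coeff_map, coeff_mk]
      rfl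
    have h3 : m2 f = mι (m1 f) + y * C (q b) := by
      rw [h1, h2]
      congr 1
      show _ = PowerSeries.map ι (C _)
      rw [PowerSeries.map_C]
      rfl
    refine ⟨⟨f, ⟨_, h3⟩⟩, ?_⟩
    rw [hψ, hF f ⟨_, h3⟩ _ h3, h1, constantCoeff_C, constantCoeff_C, hmx]
  · rw [hψ]
    have h1 : m2 (X : PowerSeries (A₁ × A₂)) = mι (m1 X) + y * 0 := by
      show PowerSeries.map _ X = PowerSeries.map _ (PowerSeries.map _ X) + y * 0
      rw [PowerSeries.map_X, PowerSeries.map_X, PowerSeries.map_X, mul_zero, add_zero]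
    rw [hF _ hX 0 h1, map_zero, hmx0, add_zero]
    show ((constantCoeff (PowerSeries.map (RingHom.fst A₁ A₂) X) : A₁) : A) = 0
    rw [PowerSeries.map_X, constantCoeff_X]
    rfl
  · rintro f ⟨u, hu⟩ ⟨w, rfl⟩
    rw [hψ, hF _ ⟨u, hu⟩ u hu]
    have h1 : m1 (X ^ (e + 1) * w) = X ^ (e + 1) * m1 w := by
      rw [map_mul, map_pow]
      congr 2
      exact PowerSeries.map_X _
    have h2 : m2 (X ^ (e + 1) * w) = X ^ (e + 1) * m2 w := by
      rw [map_mul, map_pow]
      congr 2
      exact PowerSeries.map_X _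
    have h3 : mι (X ^ (e + 1) * m1 w) = X ^ (e + 1) * mι (m1 w) := by
      rw [map_mul, map_pow]
      congr 2
      exact PowerSeries.map_X _
    have h4 : constantCoeff (m1 (X ^ (e + 1) * w)) = 0 := by
      rw [h1, map_mul, map_pow, constantCoeff_X, zero_pow (Nat.succ_ne_zero e), zero_mul]
    rw [h1, h2, h3] at hu
    have h5 : u = g * (m2 w - mι (m1 w)) := by
      have h6 : y * (u - g * (m2 w - mι (m1 w))) = 0 := by
        have h7 : y * (g * (m2 w - mι (m1 w))) = X ^ (e + 1) * (m2 w - mι (m1 w)) := by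
          rw [← hg]; ring
        rw [mul_sub, h7, mul_sub, hu]
        ring
      exact sub_eq_zero.mp (hyinj _ h6)
    rw [h4, h5, map_mul, hg0]
    obtain ⟨w', hw'⟩ := hq (constantCoeff (m2 w - mι (m1 w)))
    rw [← hw', ← map_neg, ← map_pow, ← map_mul, hmx]
    have h8 : x * ((-x) ^ e * w') = (-1) ^ e * (x ^ (e + 1) * w') := by
      rw [neg_pow]; ring
    rw [h8, hx, zero_mul, mul_zero, add_zero]
    rfl

end integration

end Pool.Agent.H15.DB
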