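import Pool.Agent.H15.CX.GeomRed
import Pool.Agent.H15.CX.Split

/-!
# Degenerations along jets of higher order through a ramified smoothing
-/

open TensorProduct Module PowerSeries

namespace Pool.Agent.H15.DB

open Pool.Agent.H12.Defect Pool.Agent.H15.Defect Pool.Agent.H15.CX

universe u

section ram

variable (k : Type u) [Field k] (e : ℕ)

/-- The ring of power series as an algebra over itself by `X ↦ X ^ (e + 1)`. -/
def Rae (_ : ℕ) : Type u := PowerSeries k

noncomputable instance : CommRing (Rae k e) := inferInstanceAs (CommRing (PowerSeries k))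

noncomputable instance : Algebra (PowerSeries k) (Rae k e) :=
  RingHom.toAlgebra (S := Rae k e)
    (expand (e + 1) (Nat.succ_ne_zero e) : PowerSeries k →ₐ[k] PowerSeries k).toRingHom

/-- The algebraic closure as an algebra over the ramified ring. -/
def OmE (_ : ℕ) : Type u := Om k

noncomputable instance : Field (OmE k e) := inferInstanceAs (Field (Om k))

noncomputable instance : Algebra (Rae k e) (OmE k e) :=
  inferInstanceAs (Algebra (PowerSeries k) (Om k))

noncomputable instance : Algebra (PowerSeries k) (OmE k e) :=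
  ((algebraMap (Rae k e) (OmE k e)).comp (algebraMap (PowerSeries k) (Rae k e))).toAlgebra

instance : IsScalarTower (PowerSeries k) (Rae k e) (OmE k e) :=
  IsScalarTower.of_algebraMap_eq fun _ => rfl

theorem algebraMap_omE_injective :
    Function.Injective (algebraMap (PowerSeries k) (OmE k e)) := by
  have h1 : Function.Injective (algebraMap (Rae k e) (OmE k e)) :=
    algebraMap_om_injective (k := k)
  have h2 : Function.Injective (algebraMap (PowerSeries k) (Rae k e)) := by
    intro f g hfg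
    have h3 : expand (e + 1) (Nat.succ_ne_zero e) f = expand (e + 1) (Nat.succ_ne_zero e) g := hfg
    ext n
    have := congrArg (coeff ((e + 1) * n)) h3
    rwa [coeff_expand_mul, coeff_expand_mul] at this
  exact h1.comp h2

variable (𝒜 : Type u) [CommRing 𝒜] [Algebra (PowerSeries k) 𝒜]

/-- The ramified base change of a family over `k⟦X⟧`. -/
def Rme : Type u := Rae k e ⊗[PowerSeries k] 𝒜

noncomputable instance : CommRing (Rme k e 𝒜) :=
  inferInstanceAs (CommRing (Rae k e ⊗[PowerSeries k] 𝒜))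

noncomputable instance : Algebra (PowerSeries k) (Rme k e 𝒜) :=
  inferInstanceAs (Algebra (Rae k e) (Rae k e ⊗[PowerSeries k] 𝒜))

instance [Module.Finite (PowerSeries k) 𝒜] : Module.Finite (PowerSeries k) (Rme k e 𝒜) :=
  inferInstanceAs (Module.Finite (Rae k e) (Rae k e ⊗[PowerSeries k] 𝒜))

instance [Module.Free (PowerSeries k) 𝒜] : Module.Free (PowerSeries k) (Rme k e 𝒜) :=
  inferInstanceAs (Module.Free (Rae k e) (Rae k e ⊗[PowerSeries k] 𝒜))

theorem finrank_rme [Module.Free (PowerSeries k) 𝒜] :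
    finrank (PowerSeries k) (Rme k e 𝒜) = finrank (PowerSeries k) 𝒜 := by
  have hnt : Nontrivial (Rae k e) := inferInstanceAs (Nontrivial (PowerSeries k))
  have h1 : finrank (Rae k e) (Rae k e ⊗[PowerSeries k] 𝒜) = finrank (PowerSeries k) 𝒜 :=
    Module.finrank_baseChange
  exact h1

theorem isReduced_rme [Module.Finite (PowerSeries k) 𝒜]
    (hred : IsReduced (Om k ⊗[PowerSeries k] 𝒜)) :
    IsReduced (Om k ⊗[PowerSeries k] (Rme k e 𝒜)) := by
  have h1 : IsReduced (OmE k e ⊗[PowerSeries k] 𝒜) :=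
    isReduced_of_field' hred (OmE k e) (algebraMap_omE_injective k e)
  let e' := Algebra.TensorProduct.cancelBaseChange (PowerSeries k) (Rae k e) (OmE k e) (OmE k e) 𝒜
  have h2 : IsReduced (OmE k e ⊗[Rae k e] (Rae k e ⊗[PowerSeries k] 𝒜)) :=
    isReduced_of_injective e' e'.injective
  exact h2

end ram

section jet

variable {k : Type u} [Field k] (E : Type u) [CommRing E] [Algebra k E] (e : ℕ)

/-- Jets of order `e` in `E`. -/
abbrev Jt : Type u := PowerSeries E ⧸ Ideal.span {(X : PowerSeries E) ^ (e + 1)}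

/-- The homomorphism `k⟦X⟧ → E⟦X⟧ / X ^ (e + 1)`. -/
noncomputable def toJet : PowerSeries k →+* Jt E e :=
  (Ideal.Quotient.mk _).comp (PowerSeries.map (algebraMap k E))

theorem toJet_apply (r : PowerSeries k) :
    toJet E e r = Ideal.Quotient.mk _ (PowerSeries.map (algebraMap k E) r) := rfl

theorem toJet_X : toJet (k := k) E e X = Ideal.Quotient.mk _ X := by
  rw [toJet_apply, PowerSeries.map_X]

theorem algebraMap_jt (c : k) : algebraMap k (Jt E e) c =
    Ideal.Quotient.mk _ (PowerSeries.C (algebraMap k E c)) := by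
  rw [← PowerSeries.algebraMap_apply]
  rfl

theorem toJet_C (c : k) : toJet (k := k) E e (C c) = algebraMap k (Jt E e) c := by
  rw [toJet_apply, PowerSeries.map_C, algebraMap_jt]

theorem mk_eq_iff (f g : PowerSeries E) :
    (Ideal.Quotient.mk (Ideal.span {(X : PowerSeries E) ^ (e + 1)}) f = Ideal.Quotient.mk _ g) ↔
      (X : PowerSeries E) ^ (e + 1) ∣ f - g := by
  rw [Ideal.Quotient.eq, Ideal.mem_span_singleton]

theorem toJet_expand (r : PowerSeries k) :
    toJet (k := k) E e (expand (e + 1) (Nat.succ_ne_zero e) r) =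
      algebraMap k (Jt E e) (constantCoeff r) := by
  rw [toJet_apply, algebraMap_jt, mk_eq_iff, X_pow_dvd_iff]
  intro m hm
  rw [map_sub, coeff_map, coeff_expand, coeff_C]
  by_cases h0 : m = 0
  · subst h0
    simp
  · rw [if_neg h0, if_neg, map_zero, sub_zero]
    intro hd
    exact h0 (Nat.eq_zero_of_dvd_of_lt hd hm)

theorem mk_eq_sum (f : PowerSeries E) :
    (Ideal.Quotient.mk (Ideal.span {(X : PowerSeries E) ^ (e + 1)}) f) =
      ∑ i ∈ Finset.range (e + 1), Ideal.Quotient.mk _ X ^ i *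
        Ideal.Quotient.mk _ (C (coeff i f)) := by
  have h1 : (∑ i ∈ Finset.range (e + 1), Ideal.Quotient.mk _ X ^ i *
        Ideal.Quotient.mk _ (C (coeff i f)) : Jt E e) =
      Ideal.Quotient.mk _ (∑ i ∈ Finset.range (e + 1), X ^ i * C (coeff i f)) := by
    rw [map_sum]
    refine Finset.sum_congr rfl fun i _ => ?_
    rw [map_mul, map_pow]
  rw [h1, mk_eq_iff, X_pow_dvd_iff]
  intro m hm
  rw [map_sub, map_sum, sub_eq_zero, Finset.sum_eq_single m]
  · rw [coeff_X_pow_mul', if_pos le_rfl, Nat.sub_self, coeff_zero_C]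
  · intro i _ hi
    rw [coeff_X_pow_mul']
    split_ifs with h
    · rw [coeff_C, if_neg (by omega)]
    · rfl
  · intro h
    exact absurd (Finset.mem_range.mpr hm) h

theorem toJet_mem (S : Subalgebra k (Jt E e))
    (h : (Ideal.Quotient.mk _ X : Jt E e) ∈ S) (r : PowerSeries k) : toJet E e r ∈ S := by
  rw [toJet_apply, mk_eq_sum]
  refine S.sum_mem fun i _ => S.mul_mem (S.pow_mem h i) ?_
  rw [coeff_map, ← algebraMap_jt]
  exact S.algebraMap_mem _

end jet

section main

variable {k : Type u} [Field k] {E H 𝒜 : Type u} [CommRing E] [Algebra k E] [CommRing H]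
  [Algebra k H] [CommRing 𝒜] [Algebra (PowerSeries k) 𝒜] {π : 𝒜 →+* H} (e : ℕ)

/-- The reduction of the ramified base change modulo `X ^ (e + 1)`. -/
noncomputable def redJet (h : IsModel k π) (p : H →ₐ[k] E) : Rme k e 𝒜 →+* Jt E e :=
  letI : Algebra (PowerSeries k) (Jt E e) := constAlg k _
  letI f : Rae k e →ₐ[PowerSeries k] Jt E e :=
    { (toJet E e : PowerSeries k →+* Jt E e) with
      commutes' := by
        intro r
        exact toJet_expand E e r }
  letI g : 𝒜 →ₐ[PowerSeries k] Jt E e :=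
    { (((Ideal.Quotient.mk _).comp (C : E →+* PowerSeries E)).comp (p : H →+* E)).comp π with
      commutes' := by
        intro r
        have h1 : π (algebraMap (PowerSeries k) 𝒜 r) = algebraMap k H (constantCoeff r) := by
          have := h.smul r 1
          rwa [Algebra.smul_def, mul_one, map_one, ← Algebra.algebraMap_eq_smul_one] at this
        show Ideal.Quotient.mk _ (C (p (π (algebraMap (PowerSeries k) 𝒜 r)))) =
          algebraMap k (Jt E e) (constantCoeff r)
        rw [h1, AlgHom.commutes, algebraMap_jt] }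
  (Algebra.TensorProduct.productMap f g :
    Rae k e ⊗[PowerSeries k] 𝒜 →ₐ[PowerSeries k] Jt E e).toRingHom

theorem redJet_tmul (h : IsModel k π) (p : H →ₐ[k] E) (r : PowerSeries k) (a : 𝒜) :
    redJet e h p ((show Rae k e from r) ⊗ₜ[PowerSeries k] a : Rae k e ⊗[PowerSeries k] 𝒜) =
      toJet E e r * Ideal.Quotient.mk _ (C (p (π a))) := rfl

theorem redJet_algebraMap (h : IsModel k π) (p : H →ₐ[k] E) (r : PowerSeries k) :
    redJet e h p (algebraMap (PowerSeries k) (Rme k e 𝒜) r) = toJet E e r := by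
  refine (redJet_tmul e h p r 1).trans ?_
  rw [map_one, map_one, map_one, map_one, mul_one]

theorem redJet_surjective (h : IsModel k π) (p : H →ₐ[k] E) (hp : Function.Surjective p) :
    Function.Surjective (redJet e h p) := by
  intro z
  obtain ⟨f, rfl⟩ := Ideal.Quotient.mk_surjective z
  choose a ha using fun i : ℕ => (hp.comp h.surj) (coeff i f)
  refine ⟨∑ i ∈ Finset.range (e + 1), ((show Rae k e from ((X : PowerSeries k) ^ i))
    ⊗ₜ[PowerSeries k] (a i) : Rae k e ⊗[PowerSeries k] 𝒜), ?_⟩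
  have h1 := map_sum (redJet e h p) (fun i => ((show Rae k e from ((X : PowerSeries k) ^ i))
    ⊗ₜ[PowerSeries k] (a i) : Rae k e ⊗[PowerSeries k] 𝒜)) (Finset.range (e + 1))
  refine h1.trans ?_
  rw [mk_eq_sum]
  refine Finset.sum_congr rfl fun i _ => ?_
  refine (redJet_tmul e h p ((X : PowerSeries k) ^ i) (a i)).trans ?_
  have ha' : p (π (a i)) = coeff i f := ha i
  rw [map_pow, toJet_X, ha']

theorem dle_of_jet {G : Type u} [CommRing G] [Algebra k G] {N : ℕ} (hE : Dle k E N)
    (S : Subalgebra k (Jt E e)) (h : (Ideal.Quotient.mk _ X : Jt E e) ∈ S)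
    (ψ : S →ₐ[k] G) (hψ : Function.Surjective ψ) (h0 : ψ ⟨Ideal.Quotient.mk _ X, h⟩ = 0) :
    Dle k G N := by
  obtain ⟨H, i1, i2, hH, ⟨p, hp⟩, hfr⟩ := hE
  obtain ⟨𝒜, j1, j2, π, hm⟩ := isSmoothable_iff.mp hH
  have hf := hm.finite
  have hfree := hm.free
  let ρ := redJet e hm p
  let P : Subalgebra (PowerSeries k) (Rme k e 𝒜) :=
    { carrier := {z | ρ z ∈ S}
      mul_mem' := by
        intro a b ha hb
        show ρ (a * b) ∈ S
        rw [map_mul]; exact S.mul_mem ha hb
      add_mem' := by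
        intro a b ha hb
        show ρ (a + b) ∈ S
        rw [map_add]; exact S.add_mem ha hb
      algebraMap_mem' := by
        intro r
        show ρ (algebraMap (PowerSeries k) (Rme k e 𝒜) r) ∈ S
        rw [redJet_algebraMap]
        exact toJet_mem E e S h r }
  have hP : ∀ z, z ∈ P ↔ ρ z ∈ S := fun z => Iff.rfl
  obtain ⟨B, l1, l2, π', hB⟩ := exists_model_subalgebra (isReduced_rme k e 𝒜 hm.reduced) P
  let φ0 : P →+* S := (ρ.comp P.toSubring.subtype).codRestrict S.toSubring (fun a => a.2)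
  have hφ0 : ∀ z : P, ((φ0 z : S) : Jt E e) = ρ z.1 := fun _ => rfl
  let φ : P →+* G := (ψ : S →+* G).comp φ0
  obtain ⟨g, hg⟩ := hB.exists_lift φ (by
    have h1 : φ0 (algebraMap (PowerSeries k) P X) = ⟨Ideal.Quotient.mk _ X, h⟩ := by
      apply Subtype.ext
      rw [hφ0]
      refine (redJet_algebraMap e hm p X).trans ?_
      exact toJet_X E e
    show ψ (φ0 (algebraMap (PowerSeries k) P X)) = 0
    rw [h1, h0]) (by
    intro r
    have h1 : φ0 (algebraMap (PowerSeries k) P (C r)) = algebraMap k S r := by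
      apply Subtype.ext
      rw [hφ0]
      refine (redJet_algebraMap e hm p (C r)).trans ?_
      exact toJet_C E e r
    show ψ (φ0 (algebraMap (PowerSeries k) P (C r))) = algebraMap k G r
    rw [h1, AlgHom.commutes])
  refine ⟨B, l1, l2, isSmoothable_iff.mpr ⟨_, _, _, _, hB⟩, ⟨g, ?_⟩, ?_⟩
  · intro x
    obtain ⟨s, hs⟩ := hψ x
    obtain ⟨z, hz⟩ := redJet_surjective e hm p hp s.1
    have hz' : z ∈ P := by
      rw [hP]
      show redJet e hm p z ∈ S
      rw [hz]
      exact s.2
    refine ⟨π' ⟨z, hz'⟩, ?_⟩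
    rw [hg]
    have h1 : φ0 ⟨z, hz'⟩ = s := by
      apply Subtype.ext
      rw [hφ0]
      exact hz
    show ψ (φ0 ⟨z, hz'⟩) = x
    rw [h1, hs]
  · rw [hB.finrank_eq]
    have h1 : finrank (PowerSeries k) P ≤ finrank (PowerSeries k) (Rme k e 𝒜) :=
      Submodule.finrank_le (Subalgebra.toSubmodule P)
    rw [finrank_rme, ← hm.finrank_eq] at h1
    exact h1.trans hfr

/-- The degeneration principle with power series over `E`. -/
theorem dle_of_series {G : Type u} [CommRing G] [Algebra k G] {N : ℕ} (hE : Dle k E N)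
    (S₀ : Subalgebra k (PowerSeries E)) (ψ₀ : S₀ →ₐ[k] G) (hψ₀ : Function.Surjective ψ₀)
    (hX : (X : PowerSeries E) ∈ S₀) (hX0 : ψ₀ ⟨X, hX⟩ = 0)
    (h0 : ∀ f : PowerSeries E, ∀ hf : f ∈ S₀, (X : PowerSeries E) ^ (e + 1) ∣ f →
      ψ₀ ⟨f, hf⟩ = 0) : Dle k G N := by
  let q0 : PowerSeries E →ₐ[k] Jt E e := Ideal.Quotient.mkₐ k _
  let S : Subalgebra k (Jt E e) := S₀.map q0
  let q : S₀ →ₐ[k] S := (q0.comp S₀.val).codRestrict S (fun a => ⟨a.1, a.2, rfl⟩)
  have hq : Function.Surjective q := by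
    rintro ⟨_, f, hf, rfl⟩
    exact ⟨⟨f, hf⟩, rfl⟩
  have hker : RingHom.ker (q : S₀ →+* S) ≤ RingHom.ker (ψ₀ : S₀ →+* G) := by
    intro f hf
    rw [RingHom.mem_ker] at hf ⊢
    have h1 : (Ideal.Quotient.mk (Ideal.span {(X : PowerSeries E) ^ (e + 1)}) f.1) = 0 :=
      congrArg Subtype.val hf
    rw [Ideal.Quotient.eq_zero_iff_mem, Ideal.mem_span_singleton] at h1
    exact h0 f.1 f.2 h1
  let ψr : S →+* G := RingHom.liftOfSurjective (q : S₀ →+* S) hq ⟨(ψ₀ : S₀ →+* G), hker⟩
  have hψr : ∀ a, ψr (q a) = ψ₀ a :=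
    RingHom.liftOfRightInverse_comp_apply (q : S₀ →+* S) _ _ ⟨(ψ₀ : S₀ →+* G), hker⟩
  let ψ : S →ₐ[k] G :=
    { ψr with
      commutes' := by
        intro c
        have h1 := hψr (algebraMap k S₀ c)
        rw [AlgHom.commutes, AlgHom.commutes] at h1
        exact h1 }
  have hψ : ∀ a, ψ (q a) = ψ₀ a := hψr
  refine dle_of_jet e hE S ⟨X, hX, rfl⟩ ψ ?_ ?_
  · intro g
    obtain ⟨a, ha⟩ := hψ₀ g
    exact ⟨q a, (hψ a).trans ha⟩
  · have h1 := hψ ⟨X, hX⟩
    rw [hX0] at h1
    exact h1

end main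

end Pool.Agent.H15.DB
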